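import Pool.Agent.Helper51_ABCT.Frmg

/-!
# JACF: derivatives and Jacobians at a frame point
-/

open MvPolynomial Topology

namespace PosGeom.H51

theorem der_aeval {K : Type} [Field K] [Algebra ℂ K] {d : ℕ} {y : Fin d → K}
    {D : Fin d → Derivation ℂ K K} (hD : IsDual y D) (j : Fin d) (P : MvPolynomial (Fin d) ℂ) :
    D j (aeval y P) = aeval y (pderiv j P) := by
  induction P using MvPolynomial.induction_on with
  | C a =>
    rw [aeval_C, pderiv_C, map_zero, Derivation.map_algebraMap]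
  | add p q hp hq => rw [map_add, map_add, map_add, map_add, hp, hq]
  | mul_X p k hp =>
    rw [map_mul, aeval_X, Derivation.leibniz, hp, pderiv_mul, map_add, map_mul, map_mul, aeval_X,
      hD.1 j k, pderiv_X, smul_eq_mul, smul_eq_mul, Pi.single_apply]
    by_cases h : j = k
    · subst h
      simp
      ring
    · rw [if_neg h, if_neg (fun h' => h h'.symm), map_zero]
      ring

/-- derivative of a quotient -/
theorem der_quot {K : Type} [Field K] [Algebra ℂ K] {d : ℕ} {y : Fin d → K}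
    {D : Fin d → Derivation ℂ K K} (hD : IsDual y D) (j : Fin d) {P Q : MvPolynomial (Fin d) ℂ}
    {g : K} (hQ : aeval y Q ≠ 0) (h : g * aeval y Q = aeval y P) :
    D j g = (aeval y (pderiv j P) + -1 * (g * aeval y (pderiv j Q))) * (aeval y Q)⁻¹ := by
  have h1 := congrArg (D j) h
  rw [Derivation.leibniz, der_aeval hD, der_aeval hD, smul_eq_mul, smul_eq_mul] at h1
  rw [← h1]
  field_simp
  ring

section

variable {ι : Type} [Fintype ι] {d : ℕ} {V : PVar ι}

/-- the pairs (function, real value) -/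
def subR (hR : SrealStmt) {z : ι → ℝ} (hz : z ∈ V.RP) : Subring (V.K × ℝ) where
  carrier := {q | V.RVal z q.1 q.2}
  mul_mem' := fun {a b} ha hb => (hR ι V z hz).2.2.2.2.1 a.1 b.1 a.2 b.2 ha hb
  one_mem' := by
    have := (hR ι V z hz).2.2.1 1
    simpa using this
  add_mem' := fun {a b} ha hb => (hR ι V z hz).2.2.2.1 a.1 b.1 a.2 b.2 ha hb
  zero_mem' := by
    have := (hR ι V z hz).2.2.1 0
    simpa using this
  neg_mem' := by
    intro a ha
    have h1 := (hR ι V z hz).2.2.1 (-1)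
    have h2 := (hR ι V z hz).2.2.2.2.1 _ _ _ _ h1 ha
    have h3 : algebraMap ℂ V.K (((-1 : ℝ) : ℝ) : ℂ) * a.1 = (-a).1 := by simp
    have h4 : (-1 : ℝ) * a.2 = (-a).2 := by simp
    rw [h3, h4] at h2
    exact h2

/-- the pairs (function, complex value) -/
def subC (hS : SpecStmt) {z : ι → ℝ} (hz : z ∈ V.RP) : Subring (V.K × ℂ) where
  carrier := {q | V.Val z q.1 q.2}
  mul_mem' := fun {a b} ha hb => (hS ι V ℂ (fun i => ((z i : ℝ) : ℂ)) hz.2
    (by
      by_contra hcon
      push Not at hcon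
      apply hz.1
      funext i
      exact_mod_cast hcon i)).2.2.2.1 a.1 b.1 a.2 b.2 ha hb
  one_mem' := by
    have h := (hS ι V ℂ (fun i => ((z i : ℝ) : ℂ)) hz.2 (by
      by_contra hcon
      push Not at hcon
      apply hz.1
      funext i
      exact_mod_cast hcon i)).2.1 1
    rw [map_one, map_one] at h
    exact h
  add_mem' := fun {a b} ha hb => (hS ι V ℂ (fun i => ((z i : ℝ) : ℂ)) hz.2
    (by
      by_contra hcon
      push Not at hcon
      apply hz.1
      funext i
      exact_mod_cast hcon i)).2.2.1 a.1 b.1 a.2 b.2 ha hb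
  zero_mem' := by
    have h := (hS ι V ℂ (fun i => ((z i : ℝ) : ℂ)) hz.2 (by
      by_contra hcon
      push Not at hcon
      apply hz.1
      funext i
      exact_mod_cast hcon i)).2.1 0
    rw [map_zero, map_zero] at h
    exact h
  neg_mem' := fun {a} ha => (hS ι V ℂ (fun i => ((z i : ℝ) : ℂ)) hz.2
    (by
      by_contra hcon
      push Not at hcon
      apply hz.1
      funext i
      exact_mod_cast hcon i)).2.2.2.2.1 a.1 a.2 ha

/-- real version of `repr` -/
theorem reprR {z : ι → ℝ} {y : Fin d → V.K} {L : ι → MvPolynomial (Fin d) ℝ} {u : V.Frac}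
    {x₀ : Fin d → ℝ} {c : ℝ} (hu : u ≠ 0) (hc : c ≠ 0)
    (hgen : ∀ i, V.gen i = u * aeval (fun j => (y j : V.Frac)) (map Complex.ofRealHom (L i)))
    (hzL : ∀ i, z i = c * eval x₀ (L i)) {f : V.K} {a : ℝ} (hf : V.RVal z f a) :
    ∃ P Q : MvPolynomial (Fin d) ℝ, eval x₀ Q ≠ 0 ∧
      f * aeval y (map Complex.ofRealHom Q) = aeval y (map Complex.ofRealHom P) ∧
      a * eval x₀ Q = eval x₀ P := by
  obtain ⟨n, F, G, hF, hG, h0, h1, h2⟩ := hf
  have hmap : ∀ H : MvPolynomial ι ℝ, map Complex.ofRealHom (aeval L H) =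
      aeval (fun i => map Complex.ofRealHom (L i)) (map Complex.ofRealHom H) := by
    intro H
    induction H using MvPolynomial.induction_on with
    | C a => simp [algebraMap_eq]
    | add p q hp hq => rw [map_add, map_add, hp, hq, map_add, map_add]
    | mul_X p k hp => rw [map_mul, map_mul, hp, map_mul, map_mul, aeval_X, map_X, aeval_X]
  have hev : ∀ H : MvPolynomial ι ℝ, H.IsHomogeneous n →
      aeval V.gen (map Complex.ofRealHom H) = u ^ n * aeval (fun j => (y j : V.Frac))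
        (map Complex.ofRealHom (aeval L H)) := by
    intro H hH
    have : V.gen = fun i => u * aeval (fun j => (y j : V.Frac)) (map Complex.ofRealHom (L i)) :=
      funext hgen
    rw [this, aeval_mul_hom (hH.map _), hmap, comp_aeval_apply]
  have hev' : ∀ H : MvPolynomial ι ℝ, H.IsHomogeneous n →
      eval z H = c ^ n * eval x₀ (aeval L H) := by
    intro H hH
    have : z = fun i => c * eval x₀ (L i) := funext hzL
    rw [this, ← aeval_eq_eval]
    change aeval (fun i => c * eval x₀ (L i)) H = _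
    rw [aeval_mul_hom hH]
    congr 1
    have h5 := comp_aeval_apply (R := ℝ) L (aeval x₀ : MvPolynomial (Fin d) ℝ →ₐ[ℝ] ℝ) H
    rw [aeval_eq_eval] at h5
    exact h5.symm
  have hun : u ^ n ≠ 0 := pow_ne_zero n hu
  have hcn : c ^ n ≠ 0 := pow_ne_zero n hc
  refine ⟨aeval L F, aeval L G, ?_, ?_, ?_⟩
  · intro h
    apply h0
    rw [hev' G hG, h, mul_zero]
  · apply Subtype.ext
    change (f : V.Frac) * ((aeval y _ : V.K) : V.Frac) = ((aeval y _ : V.K) : V.Frac)
    rw [coe_aeval, coe_aeval]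
    apply mul_left_cancel₀ hun
    rw [← hev F hF, ← h1, hev G hG]
    ring
  · rw [hev' G hG, hev' F hF] at h2
    apply mul_left_cancel₀ hcn
    rw [← h2]
    ring

theorem rval_aeval (hR : SrealStmt) {z : ι → ℝ} (hz : z ∈ V.RP) {y : Fin d → V.K}
    {x₀ : Fin d → ℝ} (hy : ∀ j, V.RVal z (y j) (x₀ j)) (P : MvPolynomial (Fin d) ℝ) :
    V.RVal z (aeval y (map Complex.ofRealHom P)) (eval x₀ P) := by
  obtain ⟨-, -, s2, s3, s4, -⟩ := hR ι V z hz
  induction P using MvPolynomial.induction_on with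
  | C a =>
    rw [map_C, aeval_C, eval_C]
    exact s2 a
  | add p q hp hq =>
    rw [map_add, map_add, map_add]
    exact s3 _ _ _ _ hp hq
  | mul_X p k hp =>
    rw [map_mul, map_mul, map_mul, map_X, aeval_X, eval_X]
    exact s4 _ _ _ _ hp (hy k)

theorem map_pderiv_real (j : Fin d) (P : MvPolynomial (Fin d) ℝ) :
    pderiv j (map Complex.ofRealHom P) = map Complex.ofRealHom (pderiv j P) := by
  rw [pderiv_map]

theorem jacf (hS : SpecStmt) (hR : SrealStmt) (hF : FoneStmt) : JacfStmt := by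
  intro ι _ d V y D L u x₀ z c hu hc hz hcoord hD hgen hzL hy
  have hne : ∃ i, ((z i : ℝ) : ℂ) ≠ 0 := by
    by_contra hcon
    push Not at hcon
    apply hz.1
    funext i
    exact_mod_cast hcon i
  obtain ⟨s1, s2, s3, s4, s5, s6, -⟩ := hS ι V ℂ (fun i => ((z i : ℝ) : ℂ)) hz.2 hne
  obtain ⟨r1, r2, r3, r4, r5, r6, -⟩ := hR ι V z hz
  have hyv : ∀ j, V.Val z (y j) ((x₀ j : ℝ) : ℂ) := fun j => val_of_rval (hy j)
  have hgenC : ∀ i, V.gen i = u * aeval (fun j => (y j : V.Frac))
      ((fun i => map Complex.ofRealHom (L i)) i) := hgen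
  have hcC : (c : ℂ) ≠ 0 := by exact_mod_cast hc
  have hzC : ∀ i, ((z i : ℝ) : ℂ) = (c : ℂ) * aeval (fun j => ((x₀ j : ℝ) : ℂ))
      ((fun i => map Complex.ofRealHom (L i)) i) := by
    intro i
    rw [aeval_ofReal, hzL i]
    push_cast
    rfl
  have hval0 : ∀ (Q : MvPolynomial (Fin d) ℂ), aeval (fun j => ((x₀ j : ℝ) : ℂ)) Q ≠ 0 →
      aeval y Q ≠ 0 := by
    intro Q hQ h
    have hQv := val_aeval hS hz hyv Q
    rw [h] at hQv
    have h0 := s2 0
    rw [map_zero, map_zero] at h0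
    exact hQ (s1 _ _ _ hQv h0)
  -- (1)
  have hC1 : ∀ (g : V.K) (a : ℂ), V.Val z g a → ∀ j, ∃ b, V.Val z (D j g) b := by
    intro g a hg j
    obtain ⟨P, Q, hQ, hgQ, -⟩ := repr hu hcC hgenC hzC hg
    have hQ0 := hval0 Q hQ
    rw [der_quot hD j hQ0 hgQ]
    have hm1 : V.Val z (-1) (-1) := by
      have := s2 (-1)
      rw [map_neg, map_neg, map_one, map_one] at this
      exact this
    exact ⟨_, s4 _ _ _ _ (s3 _ _ _ _ (val_aeval hS hz hyv _) (s4 _ _ _ _ hm1 (s4 _ _ _ _ hg
      (val_aeval hS hz hyv _)))) (s6 _ _ (val_aeval hS hz hyv Q) hQ)⟩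
  -- (3)
  have hR3 : ∀ (g : V.K) (a : ℝ), V.RVal z g a → ∃ P Q : MvPolynomial (Fin d) ℝ,
      eval x₀ Q ≠ 0 ∧ g * aeval y (map Complex.ofRealHom Q) = aeval y (map Complex.ofRealHom P) := by
    intro g a hg
    obtain ⟨P, Q, h1, h2, -⟩ := reprR hu hc hgen hzL hg
    exact ⟨P, Q, h1, h2⟩
  -- (2)
  have hR2 : ∀ (g : V.K) (a : ℝ), V.RVal z g a → ∀ j, ∃ b, V.RVal z (D j g) b := by
    intro g a hg j
    obtain ⟨P, Q, hQ, hgQ⟩ := hR3 g a hg
    have hQ0 : aeval y (map Complex.ofRealHom Q) ≠ 0 := by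
      apply hval0
      rw [aeval_ofReal]
      exact_mod_cast hQ
    rw [der_quot hD j hQ0 hgQ, pderiv_map, pderiv_map]
    have hm1 : V.RVal z (-1) (-1) := by
      have := r3 (-1)
      have h2 : algebraMap ℂ V.K (((-1 : ℝ) : ℝ) : ℂ) = -1 := by simp
      rw [h2] at this
      exact this
    exact ⟨_, r5 _ _ _ _ (r4 _ _ _ _ (rval_aeval hR hz hy _) (r5 _ _ _ _ hm1 (r5 _ _ _ _ hg
      (rval_aeval hR hz hy _)))) (r6 _ _ (rval_aeval hR hz hy Q) hQ)⟩
  refine ⟨hC1, hR2, hR3, ?_⟩
  -- (4)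
  rintro g ⟨a, ha, hgf⟩
  choose m hm using fun i j => hR2 (g j) (a j) (ha j) i
  refine ⟨dW g D, (Matrix.of m).det, ?_, ?_, (hF V.K d y D hD).2.1 (dW g)⟩
  · rw [(hF V.K d y D hD).2.2 g]
    let M : Matrix (Fin d) (Fin d) (subR hR hz) := Matrix.of fun i j => ⟨(D i (g j), m i j), hm i j⟩
    have h1 : (Matrix.of fun i j => D i (g j)).det = (M.det : V.K × ℝ).1 := by
      have := RingHom.map_det ((RingHom.fst V.K ℝ).comp (subR hR hz).subtype) M
      exact this.symm
    have h2 : (Matrix.of m).det = (M.det : V.K × ℝ).2 := by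
      have := RingHom.map_det ((RingHom.snd V.K ℝ).comp (subR hR hz).subtype) M
      exact this.symm
    rw [h1, h2]
    exact M.det.2
  · -- the value is not zero
    have hkey : ∀ k, ∃ h : Fin d → V.K, (∀ i, ∃ b, V.Val z (h i) b) ∧
        y k - algebraMap ℂ V.K ((x₀ k : ℝ) : ℂ) =
          ∑ i, h i * (g i - algebraMap ℂ V.K ((a i : ℝ) : ℂ)) := by
      intro k
      apply hgf
      have h1 := s3 _ _ _ _ (hyv k) (s5 _ _ (s2 ((x₀ k : ℝ) : ℂ)))
      have h2 : ((x₀ k : ℝ) : ℂ) + -(algebraMap ℂ ℂ ((x₀ k : ℝ) : ℂ)) = 0 := by simp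
      rw [h2, ← sub_eq_add_neg] at h1
      exact h1
    choose h hh hhk using hkey
    choose η hη using hh
    have hmat : (Matrix.of fun j i => ((m j i : ℝ) : ℂ)) * (Matrix.of fun i k => η k i) = 1 := by
      ext j k
      rw [Matrix.mul_apply]
      have h1 := congrArg (D j) (hhk k)
      rw [map_sub, Derivation.map_algebraMap, sub_zero, hD.1 j k, map_sum] at h1
      have h2 : ∀ i, V.Val z (D j (h k i * (g i - algebraMap ℂ V.K ((a i : ℝ) : ℂ))))
          (((m j i : ℝ) : ℂ) * η k i) := by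
        intro i
        obtain ⟨e, he⟩ := hC1 _ _ (hη k i) j
        rw [Derivation.leibniz, map_sub, Derivation.map_algebraMap, sub_zero, smul_eq_mul,
          smul_eq_mul]
        have h3 : V.Val z (g i - algebraMap ℂ V.K ((a i : ℝ) : ℂ)) 0 := by
          have h1 := s3 _ _ _ _ (val_of_rval (ha i)) (s5 _ _ (s2 ((a i : ℝ) : ℂ)))
          have h2 : ((a i : ℝ) : ℂ) + -(algebraMap ℂ ℂ ((a i : ℝ) : ℂ)) = 0 := by simp
          rw [h2, ← sub_eq_add_neg] at h1
          exact h1
        have h4 := s3 _ _ _ _ (s4 _ _ _ _ (hη k i) (val_of_rval (hm j i))) (s4 _ _ _ _ h3 he)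
        have h5 : η k i * ((m j i : ℝ) : ℂ) + 0 * e = ((m j i : ℝ) : ℂ) * η k i := by ring
        rw [h5] at h4
        exact h4
      have h3 : V.Val z (∑ i, D j (h k i * (g i - algebraMap ℂ V.K ((a i : ℝ) : ℂ))))
          (∑ i, ((m j i : ℝ) : ℂ) * η k i) := by
        have := (subC hS hz).sum_mem (t := Finset.univ)
          (f := fun i => (D j (h k i * (g i - algebraMap ℂ V.K ((a i : ℝ) : ℂ))),
            ((m j i : ℝ) : ℂ) * η k i)) (fun i _ => h2 i)
        have h6 : ∀ q : V.K × ℂ, q ∈ subC hS hz ↔ V.Val z q.1 q.2 := fun _ => Iff.rfl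
        rw [h6, Prod.fst_sum, Prod.snd_sum] at this
        exact this
      rw [← h1] at h3
      have h4 : V.Val z (if j = k then (1 : V.K) else 0) (if j = k then (1 : ℂ) else 0) := by
        split_ifs
        · have := s2 1
          rw [map_one, map_one] at this
          exact this
        · have := s2 0
          rw [map_zero, map_zero] at this
          exact this
      have h5 := s1 _ _ _ h3 h4
      rw [Matrix.one_apply]
      exact h5
    intro hdet
    have h1 := congrArg Matrix.det hmat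
    rw [Matrix.det_mul, Matrix.det_one] at h1
    have h2 : (Matrix.of fun j i => ((m j i : ℝ) : ℂ)).det = (((Matrix.of m).det : ℝ) : ℂ) := by
      have := RingHom.map_det Complex.ofRealHom (Matrix.of m)
      rw [← Complex.ofRealHom_eq_coe, this]
      rfl
    rw [h2, hdet, Complex.ofReal_zero, zero_mul] at h1
    exact zero_ne_one h1

end

end PosGeom.H51
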