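import Pool.Agent.Helper32_ABCT.EStmts
import Pool.Agent.Helper32_ABCT.NWf

/-!
# ETOR: uniqueness for toric nets (MP_a17fcb_ag, part II-E)
-/

open MvPolynomial

namespace ABCT

namespace H51

open FlatCell

/-- the exponent vector of a set -/
noncomputable def ind (I : Finset ℕ) : ℕ →₀ ℕ := ∑ i ∈ I, Finsupp.single i 1

theorem ind_apply (I : Finset ℕ) (i : ℕ) : ind I i = if i ∈ I then 1 else 0 := by
  unfold ind
  rw [Finsupp.finsetSum_apply]
  simp [Finsupp.single_apply]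

theorem prod_X_ind {R : Type*} [CommSemiring R] (I : Finset ℕ) :
    (∏ i ∈ I, X i : MvPolynomial ℕ R) = monomial (ind I) 1 := by
  unfold ind
  rw [monomial_sum_one]
  rfl

/-- the coordinates of a toric net in iterated form -/
noncomputable def tA (S : Net) (I : Finset ℕ) : MvPolynomial ℕ (MvPolynomial S.G ℂ) :=
  if I ∈ S.M then monomial (ind I) 1 else 0

theorem tA_eq (htor : TorStmt) (S : Net) (hV : S.Valid) (hT : S.Toric) (I : Finset ℕ) :
    sumAlgEquiv ℂ ℕ S.G (MvPolynomial.map (Nat.castRingHom ℂ) (S.flat.pol I)) = tA S I := by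
  obtain ⟨hwf, -⟩ := wfStmt S hV
  unfold tA FlatCell.pol
  split_ifs with hI
  · rw [show S.flat.Δ I = 1 from htor.1 S hV hT I hI, map_one, mul_one, map_prod, map_prod,
      ← prod_X_ind]
    apply Finset.prod_congr rfl
    intro i _
    rw [map_X, sumAlgEquiv_X_inl]
  · have h0 : S.flat.Δ I = 0 := by
      by_contra h
      exact hI ((hwf.ne I).1 h)
    rw [h0, map_zero, mul_zero, map_zero, map_zero]

theorem cf_toric (htor : TorStmt) (S : Net) (hV : S.Valid) (hT : S.Toric)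
    (N : MvPolynomial (Finset ℕ) ℂ) (v : ℕ →₀ ℕ) (hv : cf S.flat N v ≠ 0) :
    ∃ m ∈ N.support, (∀ I ∈ m.support, I ∈ S.M) ∧
      ∀ i, v i = ∑ I ∈ S.M.filter (fun I => i ∈ I), m I := by
  unfold cf at hv
  have h1 : sumAlgEquiv ℂ ℕ S.G
      (aeval (fun I => MvPolynomial.map (Nat.castRingHom ℂ) (S.flat.pol I)) N) =
      aeval (tA S) N := by
    have h2 := comp_aeval_apply (B := MvPolynomial ℕ (MvPolynomial S.G ℂ))
      (fun I => MvPolynomial.map (Nat.castRingHom ℂ) (S.flat.pol I))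
      (sumAlgEquiv ℂ ℕ S.G).toAlgHom N
    have h3 : (fun I => (sumAlgEquiv ℂ ℕ S.G).toAlgHom
        (MvPolynomial.map (Nat.castRingHom ℂ) (S.flat.pol I))) = tA S := by
      funext I
      exact tA_eq htor S hV hT I
    rw [h3] at h2
    exact h2
  have h1' : coeff v (aeval (tA S) N) ≠ 0 := by
    rw [← h1]; exact hv
  rw [aeval_def, eval₂_eq, coeff_sum] at h1'
  obtain ⟨m, hm, hne⟩ := Finset.exists_ne_zero_of_sum_ne_zero h1'
  refine ⟨m, hm, ?_⟩
  have hne2 : coeff v (∏ I ∈ m.support, tA S I ^ m I) ≠ 0 := by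
    intro h
    apply hne
    rw [IsScalarTower.algebraMap_apply ℂ (MvPolynomial S.G ℂ)
      (MvPolynomial ℕ (MvPolynomial S.G ℂ)), MvPolynomial.algebraMap_eq, coeff_C_mul, h, mul_zero]
  have hsub : ∀ I ∈ m.support, I ∈ S.M := by
    intro I hI
    by_contra hIM
    apply hne2
    rw [Finset.prod_eq_zero hI, coeff_zero]
    unfold tA
    rw [if_neg hIM, zero_pow (Finsupp.mem_support_iff.1 hI)]
  refine ⟨hsub, ?_⟩
  have h4 : (∏ I ∈ m.support, tA S I ^ m I) =
      monomial (∑ I ∈ m.support, m I • ind I) (1 : MvPolynomial S.G ℂ) := by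
    rw [monomial_sum_one]
    apply Finset.prod_congr rfl
    intro I hI
    unfold tA
    rw [if_pos (hsub I hI), monomial_pow, one_pow]
  rw [h4, coeff_monomial] at hne2
  have h5 : (∑ I ∈ m.support, m I • ind I) = v := by
    by_contra h
    exact hne2 (if_neg h)
  intro i
  rw [← h5, Finsupp.finsetSum_apply, Finset.sum_filter]
  have h6 : ∀ I, (m I • ind I) i = if i ∈ I then m I else 0 := by
    intro I
    rw [Finsupp.smul_apply, ind_apply]
    split_ifs <;> simp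
  simp_rw [h6]
  apply Finset.sum_subset (fun I hI => hsub I hI)
  intro I _ hI
  rw [Finsupp.notMem_support_iff.1 hI]
  simp

/-- comparison of exponents of `s` -/
theorem ord_cmp {K : Type*} [Field K] (a c : ℤ) (b : K) (A : Polynomial K) (hb : b ≠ 0)
    (h : sVar K ^ a * RatFunc.C b = sVar K ^ c * algebraMap (Polynomial K) (RatFunc K) A) :
    c ≤ a ∧ (A.coeff 0 ≠ 0 → a = c) := by
  have hs : (sVar K) ≠ 0 := RatFunc.X_ne_zero
  have hsX : sVar K = algebraMap (Polynomial K) (RatFunc K) Polynomial.X :=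
    RatFunc.algebraMap_X.symm
  have hinj := RatFunc.algebraMap_injective K
  constructor
  · by_contra hlt
    push Not at hlt
    obtain ⟨k, hk⟩ : ∃ k : ℕ, c = a + (k + 1 : ℕ) := ⟨(c - a - 1).toNat, by omega⟩
    rw [hk, zpow_add₀ hs, mul_assoc] at h
    have h1 := mul_left_cancel₀ (zpow_ne_zero a hs) h
    rw [zpow_natCast, hsX, ← map_pow, ← map_mul, ← RatFunc.algebraMap_C] at h1
    have h2 := congrArg (fun p : Polynomial K => p.coeff 0) (hinj h1)
    simp only [Polynomial.coeff_C_zero, pow_succ, mul_assoc, Polynomial.mul_coeff_zero,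
      Polynomial.coeff_X_zero, zero_mul, mul_zero] at h2
    exact hb h2
  · intro hA
    by_contra hne
    have hle : c ≤ a := by
      by_contra hlt
      push Not at hlt
      obtain ⟨k, hk⟩ : ∃ k : ℕ, c = a + (k + 1 : ℕ) := ⟨(c - a - 1).toNat, by omega⟩
      rw [hk, zpow_add₀ hs, mul_assoc] at h
      have h1 := mul_left_cancel₀ (zpow_ne_zero a hs) h
      rw [zpow_natCast, hsX, ← map_pow, ← map_mul, ← RatFunc.algebraMap_C] at h1
      have h2 := congrArg (fun p : Polynomial K => p.coeff 0) (hinj h1)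
      simp only [Polynomial.coeff_C_zero, pow_succ, mul_assoc, Polynomial.mul_coeff_zero,
        Polynomial.coeff_X_zero, zero_mul, mul_zero] at h2
      exact hb h2
    obtain ⟨k, hk⟩ : ∃ k : ℕ, a = c + (k + 1 : ℕ) := ⟨(a - c - 1).toNat, by omega⟩
    rw [hk, zpow_add₀ hs, mul_assoc] at h
    have h1 := mul_left_cancel₀ (zpow_ne_zero c hs) h
    rw [zpow_natCast, hsX, ← map_pow, ← RatFunc.algebraMap_C, ← map_mul] at h1
    have h2 := congrArg (fun p : Polynomial K => p.coeff 0) (hinj h1)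
    simp only [pow_succ, mul_assoc, Polynomial.mul_coeff_zero,
      Polynomial.coeff_X_zero, zero_mul, mul_zero] at h2
    exact hA h2.symm

/-- the exponents of the coordinates of a toric net at a facet -/
theorem toric_lam (htor : TorStmt) (S S' : Net) (φ : FacetData S.flat S'.flat) (hV : S.Valid)
    (hT : S.Toric) (hV' : S'.Valid) (hφ : φ.Ok) (I : Finset ℕ) (hI : I ∈ S.M) :
    φ.e ≤ ∑ i ∈ I, φ.lam (Sum.inl i) ∧
    (I ∈ S'.M → ∑ i ∈ I, φ.lam (Sum.inl i) = φ.e) ∧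
    (I ∉ S'.M → φ.e + 1 ≤ ∑ i ∈ I, φ.lam (Sum.inl i)) := by
  obtain ⟨hwf', -⟩ := wfStmt S' hV'
  obtain ⟨R, hR⟩ := hφ.r2 I hI
  have hs : (sVar S'.flat.F) ≠ 0 := RatFunc.X_ne_zero
  have hP : φ.P I = sVar S'.flat.F ^ (∑ i ∈ I, φ.lam (Sum.inl i)) *
      RatFunc.C (∏ i ∈ I, φ.w (Sum.inl i)) := by
    rw [phi_P_eq, show S.flat.Δ I = 1 from htor.1 S hV hT I hI]
    simp only [eval₂_one, mul_one, FacetData.psi]
    rw [Finset.prod_mul_distrib, map_prod, zpow_sum₀ hs]
  have hw : (∏ i ∈ I, φ.w (Sum.inl i)) ≠ 0 := by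
    rw [Finset.prod_ne_zero_iff]
    intro i _
    exact PosF.ne_zero (hφ.wpos (Sum.inl i))
  have hκ : φ.κ ≠ 0 := PosF.ne_zero hφ.kpos
  have h1 : sVar S'.flat.F ^ (∑ i ∈ I, φ.lam (Sum.inl i)) *
      RatFunc.C (∏ i ∈ I, φ.w (Sum.inl i)) = sVar S'.flat.F ^ φ.e *
      algebraMap (Polynomial S'.flat.F) (RatFunc S'.flat.F)
        (Polynomial.C φ.κ * (Polynomial.C (S'.flat.P I) + Polynomial.X * R)) := by
    rw [← hP, hR, map_mul, map_add, map_mul, RatFunc.algebraMap_C, RatFunc.algebraMap_C,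
      RatFunc.algebraMap_X, mul_assoc]
  obtain ⟨h2, h3⟩ := ord_cmp _ _ _ _ hw h1
  refine ⟨h2, ?_, ?_⟩
  · intro hI'
    apply h3
    have hP' : S'.flat.P I ≠ 0 := P_ne_zero S'.flat I ((hwf'.ne I).2 hI')
    simpa [hκ] using hP'
  · intro hI'
    have hΔ : S'.flat.Δ I = 0 := by
      by_contra h
      exact hI' ((hwf'.ne I).1 h)
    have hP' : S'.flat.P I = 0 := P_eq_zero S'.flat I hΔ
    rw [hP', map_zero, zero_add] at h1
    have h4 : sVar S'.flat.F ^ (∑ i ∈ I, φ.lam (Sum.inl i)) *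
        RatFunc.C (∏ i ∈ I, φ.w (Sum.inl i)) = sVar S'.flat.F ^ (φ.e + 1) *
        algebraMap (Polynomial S'.flat.F) (RatFunc S'.flat.F) (Polynomial.C φ.κ * R) := by
      rw [h1, zpow_add_one₀ hs, map_mul, map_mul, map_mul, RatFunc.algebraMap_X]
      ring
    exact (ord_cmp _ _ _ _ hw h4).1

/-- double counting over the labels -/
theorem sum_lam {K : Type*} [CommRing K] (S : Net) (hM : ∀ I ∈ S.M, I ⊆ S.E) (lam : ℕ → K)
    (α : Finset ℕ → K) :
    ∑ i ∈ S.E, lam i * ∑ I ∈ S.M.filter (fun I => i ∈ I), α I =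
      ∑ I ∈ S.M, α I * ∑ i ∈ I, lam i := by
  have h1 : ∀ i ∈ S.E, lam i * ∑ I ∈ S.M.filter (fun I => i ∈ I), α I =
      ∑ I ∈ S.M, if i ∈ I then α I * lam i else 0 := by
    intro i _
    rw [Finset.sum_filter, Finset.mul_sum]
    apply Finset.sum_congr rfl
    intro I _
    split_ifs
    · ring
    · ring
  rw [Finset.sum_congr rfl h1, Finset.sum_comm]
  apply Finset.sum_congr rfl
  intro I hI
  rw [← Finset.sum_filter, Finset.mul_sum]
  apply Finset.sum_congr _ (fun _ _ => rfl)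
  ext i
  simp only [Finset.mem_filter]
  exact ⟨fun h => h.2, fun h => ⟨hM I hI h, h⟩⟩

theorem etor (hTORD : TordStmt) (hTFACE : TfaceStmt) (hEXIT : ExitStmt) (hTOR : TorStmt)
    (hCALL : CallStmt) (hBD : BDallStmt) (hEEXP : EexpStmt) (hFAC : FacetStmt) : EtorStmt := by
  intro S hV hT _ hcard n N hN hE
  rw [hEEXP.2.1]
  intro v
  by_contra hv
  obtain ⟨hwf, hM⟩ := wfStmt S hV
  obtain ⟨m, hm, hmM, hvm⟩ := cf_toric hTOR S hV hT N v hv
  have hB : S.HasB := (hBD S hV).1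
  -- total degree
  have hdeg : ∑ I ∈ S.M, m I = n * S.M.card := by
    have h1 : Finsupp.weight 1 m = n * S.M.card := hN (mem_support_iff.1 hm)
    rw [← h1, Finsupp.weight_apply, Finsupp.sum]
    simp only [Pi.one_apply, smul_eq_mul, mul_one]
    symm
    apply Finset.sum_subset (fun I hI => hmM I hI)
    intro I _ hI
    exact Finsupp.notMem_support_iff.1 hI
  -- the facet inequality
  have key : ∀ ν : ℕ → ℝ, (∃ I ∈ S.M, ∃ J ∈ S.M, ∑ i ∈ I, ν i ≠ ∑ i ∈ J, ν i) →
      ∃ (S' : Net) (φ : FacetData S.flat S'.flat), S'.Valid ∧ S'.M ⊂ S.M ∧ φ.Ok ∧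
        (∀ I ∈ S.M, (∀ J ∈ S.M, ∑ i ∈ I, ν i ≤ ∑ i ∈ J, ν i) → I ∈ S'.M) ∧
        1 ≤ ∑ i ∈ S.E, φ.lam (Sum.inl i) * ww S.flat n v i := by
    intro ν hν
    obtain ⟨S', hF, hmin⟩ := hTFACE S ν hV hB hν
    obtain ⟨φ, hφ⟩ := hCALL S S' hV hF
    obtain ⟨hV', -, -, hss⟩ := hFAC S S' hV hF
    exact ⟨S', φ, hV', hss, hφ, hmin, hTORD S S' φ n N hV hT hF hφ hE v hv⟩
  have hww : ∀ i, (ww S.flat n v i : ℝ) =
      ∑ I ∈ S.M.filter (fun I => i ∈ I), ((m I : ℝ) - n) := by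
    intro i
    unfold ww
    rw [hvm i, Finset.sum_sub_distrib, Finset.sum_const]
    push_cast
    rw [nsmul_eq_mul]
    ring
  by_cases hw0 : ∃ i, (ww S.flat n v i : ℝ) ≠ 0
  · -- the generic case
    have hβ : ∑ I ∈ S.M, ((m I : ℝ) - n) = 0 := by
      rw [Finset.sum_sub_distrib, Finset.sum_const, ← Nat.cast_sum, hdeg]
      push_cast
      rw [nsmul_eq_mul]
      ring
    obtain ⟨ν, α, τ, hτ, hα0, hα1, hαw, hαmin, hνne⟩ := hEXIT S.M
      (fun i => (ww S.flat n v i : ℝ)) (fun I => (m I : ℝ) - n) hwf.nonempty hw0 hβ hww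
    obtain ⟨S', φ, hV', hss, hφ, hmin, hord⟩ := key ν hνne
    have hlam := fun I hI => toric_lam hTOR S S' φ hV hT hV' hφ I hI
    set lam : ℕ → ℝ := fun i => (φ.lam (Sum.inl i) : ℝ) with hlamd
    have hMsub : ∀ I ∈ S.M, I ⊆ S.E := fun I hI => (hM I hI).1
    have h1 := sum_lam S hMsub lam α
    have h2 : ∑ I ∈ S.M, α I * ∑ i ∈ I, lam i = φ.e := by
      have h3 : ∀ I ∈ S.M, α I * ∑ i ∈ I, lam i = α I * φ.e := by
        intro I hI
        by_cases h0 : α I = 0
        · rw [h0, zero_mul, zero_mul]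
        · have h4 := (hlam I hI).2.1 (hmin I hI (hαmin I hI h0))
          rw [← h4, hlamd]
          push_cast
          rfl
      rw [Finset.sum_congr rfl h3, ← Finset.sum_mul, hα1, one_mul]
    have h3 := sum_lam S hMsub lam (fun _ => (1 : ℝ))
    have hcpos : (0 : ℝ) < S.M.card := by
      have : 0 < S.M.card := by omega
      exact_mod_cast this
    have h4 : ∑ i ∈ S.E, lam i * ∑ I ∈ S.M.filter (fun I => i ∈ I), α I =
        (∑ i ∈ S.E, lam i * ∑ I ∈ S.M.filter (fun I => i ∈ I), (1 : ℝ)) / S.M.card +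
          τ * ∑ i ∈ S.E, lam i * (ww S.flat n v i : ℝ) := by
      rw [Finset.sum_div, Finset.mul_sum, ← Finset.sum_add_distrib]
      apply Finset.sum_congr rfl
      intro i _
      rw [hαw i, Finset.sum_const, nsmul_eq_mul, mul_one]
      ring
    have h5 : (φ.e : ℝ) * S.M.card < ∑ I ∈ S.M, (1 : ℝ) * ∑ i ∈ I, lam i := by
      have h6 : (φ.e : ℝ) * S.M.card = ∑ I ∈ S.M, (φ.e : ℝ) := by
        rw [Finset.sum_const, nsmul_eq_mul, mul_comm]
      rw [h6]
      obtain ⟨J, hJ, hJ'⟩ := Finset.exists_of_ssubset hss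
      apply Finset.sum_lt_sum
      · intro I hI
        have := (hlam I hI).1
        rw [one_mul, hlamd, ← Int.cast_sum]
        exact_mod_cast this
      · refine ⟨J, hJ, ?_⟩
        have := (hlam J hJ).2.2 hJ'
        rw [one_mul, hlamd, ← Int.cast_sum]
        exact_mod_cast (by omega : φ.e < ∑ i ∈ J, φ.lam (Sum.inl i))
    rw [← h3] at h5
    have h6 : (1 : ℝ) ≤ ∑ i ∈ S.E, lam i * (ww S.flat n v i : ℝ) := by
      have : ((1 : ℤ) : ℝ) ≤ ((∑ i ∈ S.E, φ.lam (Sum.inl i) * ww S.flat n v i : ℤ) : ℝ) := by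
        exact_mod_cast hord
      push_cast at this
      exact this
    have h7 : (φ.e : ℝ) < (∑ i ∈ S.E, lam i * ∑ I ∈ S.M.filter (fun I => i ∈ I), (1 : ℝ)) /
        S.M.card := by
      rw [lt_div_iff₀ hcpos]
      exact h5
    rw [h2, h4] at h1
    have h8 : 0 < τ * ∑ i ∈ S.E, lam i * (ww S.flat n v i : ℝ) :=
      mul_pos hτ (by linarith)
    linarith
  · -- all exponents vanish
    push Not at hw0
    obtain ⟨I, hI, J, hJ, hIJ⟩ := Finset.one_lt_card.1 (by omega : 1 < S.M.card)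
    obtain ⟨i, hiI, hiJ⟩ : ∃ i ∈ I, i ∉ J := by
      by_contra h
      push Not at h
      exact hIJ (Finset.eq_of_subset_of_card_le h (hwf.card J hJ I hI).le)
    obtain ⟨S', φ, -, -, -, -, hord⟩ := key (fun j => if j = i then 1 else 0) ⟨I, hI, J, hJ, by
      rw [Finset.sum_ite_eq', Finset.sum_ite_eq', if_pos hiI, if_neg hiJ]
      exact one_ne_zero⟩
    have h9 : ∀ i, ww S.flat n v i = 0 := fun i => by exact_mod_cast hw0 i
    simp_rw [h9, mul_zero, Finset.sum_const_zero] at hord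
    omega

end H51

end ABCT
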