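import Pool.Agent.Helper32_ABCT.EStmts
import Pool.Agent.Helper32_ABCT.NWf

/-!
# TORD: orders in the toric case (MP_a17fcb_ag, part II-E)
-/

open MvPolynomial

namespace ABCT

namespace H51

open FlatCell

/-- toric nets have no gap variables -/
theorem toric_isEmpty : ∀ S : Net, S.Toric → IsEmpty S.G
  | Net.black _, _ => inferInstanceAs (IsEmpty Empty)
  | Net.white _, _ => inferInstanceAs (IsEmpty Empty)
  | Net.gen _ _, h => absurd h (by simp [Net.Toric])
  | Net.dsum S T, h => by
    have h1 := toric_isEmpty S h.1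
    have h2 := toric_isEmpty T h.2
    exact inferInstanceAs (IsEmpty (S.G ⊕ T.G))
  | Net.tsum S T _, h => by
    have h1 := toric_isEmpty S h.1
    have h2 := toric_isEmpty T h.2
    exact inferInstanceAs (IsEmpty (S.G ⊕ T.G))

/-- the identity twist -/
noncomputable def idTw (S : FlatCell) : Twist S S := ⟨fun _ => 1, X, X⟩

theorem idTw_ok (S : FlatCell) (hS : IsEmpty S.G) : (idTw S).Ok where
  meq := rfl
  sgn := fun _ => Or.inl rfl
  lin := fun h => isHomogeneous_X _ _
  lin' := fun h => isHomogeneous_X _ _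
  inv := fun h => by simp [idTw]
  inv' := fun h => by simp [idTw]
  eq := fun I => by simp [idTw]
  fin := inferInstance
  fin' := inferInstance
  blk := ⟨fun _ => 0, fun _ => 0, fun h => (hS.false h).elim, fun h => (hS.false h).elim,
    fun h => (hS.false h).elim, fun h => (hS.false h).elim⟩

theorem tord (hstar : EstarStmt) (hord : OrdStmt) (htor : TorStmt) : TordStmt := by
  intro S S' φ n N hV hT hF hφ hE v hv
  have hemp : IsEmpty S.G := toric_isEmpty S hT
  have hemp' : IsEmpty S.flat.G := hemp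
  obtain ⟨hwf, hM⟩ := wfStmt S hV
  have hok := idTw_ok S.flat hemp'
  have h0 := hE S (idTw S.flat) hV hok S' hF φ hφ
  have h1 := hstar S.flat S.flat S'.flat (idTw S.flat) φ n N S.E hwf hwf inferInstance
    inferInstance (fun I hI => (hM I hI).1) hok hφ h0 v hv
  obtain ⟨c, hc⟩ : ∃ c : ℂ, cf S.flat N v = C c :=
    ⟨_, MvPolynomial.eq_C_of_isEmpty (cf S.flat N v)⟩
  have hc0 : c ≠ 0 := by
    rintro rfl
    exact hv (by rw [hc, C_0])
  rw [hc, aeval_C, finprod_of_isEmpty, finprod_of_isEmpty, div_one, mul_one] at h1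
  have h2 : (∏ I ∈ S.flat.M, (eval₂ (Nat.castRingHom (RatFunc S'.flat.F))
      (fun h => (idTw S.flat).gap φ h) (S.flat.Δ I)) ^ n) = 1 := by
    apply Finset.prod_eq_one
    intro I hI
    rw [show S.flat.Δ I = 1 from htor.1 S hV hT I hI]
    simp
  rw [h2, div_one] at h1
  have h3 : (algebraMap ℂ (RatFunc S'.flat.F) c) =
      algebraMap (Polynomial S'.flat.F) (RatFunc S'.flat.F)
        (Polynomial.C (algebraMap ℂ S'.flat.F c)) := by
    rw [IsScalarTower.algebraMap_apply ℂ (Polynomial S'.flat.F) (RatFunc S'.flat.F)]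
    rfl
  rw [h3] at h1
  have h4 := (hord.2.2.2.2.2.2.1 S'.flat.F (Polynomial.C (algebraMap ℂ S'.flat.F c))
    (1 - ∑ i ∈ S.E, φ.lam (Sum.inl i) * ww S.flat n v i) (by
      rw [Polynomial.coeff_C_zero]
      exact fun h => hc0 ((algebraMap ℂ S'.flat.F).injective (h.trans (map_zero _).symm)))).1.1 h1
  linarith

end H51

end ABCT
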