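import Pool.Agent.Helper93_ABCT.StmtI

/-!
# FRMG: frames from polynomial parametrizations
-/

open MvPolynomial Topology

namespace PosGeom.H51

theorem aeval_mul_hom {ι R A : Type} [CommRing R] [CommRing A] [Algebra R A] {n : ℕ}
    {F : MvPolynomial ι R} (hF : F.IsHomogeneous n) (u : A) (v : ι → A) :
    aeval (fun i => u * v i) F = u ^ n * aeval v F := by
  rw [aeval_def, eval₂_eq, aeval_def, eval₂_eq, Finset.mul_sum]
  refine Finset.sum_congr rfl fun μ hμ => ?_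
  have hm : ∑ i ∈ μ.support, μ i = n := by
    have := hF (mem_support_iff.mp hμ)
    rw [Finsupp.weight_apply, Finsupp.sum] at this
    simpa using this
  have h2 : (∏ i ∈ μ.support, (u * v i) ^ μ i) = u ^ n * ∏ i ∈ μ.support, v i ^ μ i := by
    rw [← hm, ← Finset.prod_pow_eq_pow_sum, ← Finset.prod_mul_distrib]
    refine Finset.prod_congr rfl fun i _ => ?_
    rw [mul_pow]
  rw [h2]
  ring

theorem vanish_aux {R : Type} [CommRing R] {d : ℕ} (x₀ : Fin d → R) (P : MvPolynomial (Fin d) R) :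
    ∃ H : Fin d → MvPolynomial (Fin d) R, P - C (eval x₀ P) = ∑ k, (X k - C (x₀ k)) * H k := by
  induction P using MvPolynomial.induction_on with
  | C a => exact ⟨0, by simp⟩
  | add p q hp hq =>
    obtain ⟨H, hH⟩ := hp
    obtain ⟨H', hH'⟩ := hq
    refine ⟨H + H', ?_⟩
    rw [eval_add, C_add]
    simp only [Pi.add_apply, mul_add, Finset.sum_add_distrib]
    rw [← hH, ← hH']
    ring
  | mul_X p k hp =>
    obtain ⟨H, hH⟩ := hp
    refine ⟨fun j => H j * X k + if j = k then C (eval x₀ p) else 0, ?_⟩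
    simp only [mul_add, Finset.sum_add_distrib, ← mul_assoc, ← Finset.sum_mul]
    rw [← hH]
    simp
    ring

theorem vanish {R : Type} [CommRing R] {d : ℕ} (x₀ : Fin d → R) (P : MvPolynomial (Fin d) R)
    (h : eval x₀ P = 0) :
    ∃ H : Fin d → MvPolynomial (Fin d) R, P = ∑ k, (X k - C (x₀ k)) * H k := by
  obtain ⟨H, hH⟩ := vanish_aux x₀ P
  rw [h, C_0, sub_zero] at hH
  exact ⟨H, hH⟩

theorem aeval_ofReal {ι : Type} (x : ι → ℝ) (G : MvPolynomial ι ℝ) :
    aeval (fun i => ((x i : ℝ) : ℂ)) (map Complex.ofRealHom G) = ((eval x G : ℝ) : ℂ) := by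
  rw [aeval_def, eval₂_map]
  have h := eval₂_comp_left Complex.ofRealHom (RingHom.id ℝ) x G
  rw [← eval₂_id, ← Complex.ofRealHom_eq_coe, h]
  rfl

section

variable {ι : Type} [Fintype ι] {d : ℕ} {V : PVar ι}

theorem val_of_rval {x : ι → ℝ} {f : V.K} {a : ℝ} (h : V.RVal x f a) : V.Val x f (a : ℂ) := by
  obtain ⟨n, F, G, hF, hG, h0, h1, h2⟩ := h
  refine ⟨n, map Complex.ofRealHom F, map Complex.ofRealHom G, hF.map _, hG.map _, ?_, h1, ?_⟩
  · rw [aeval_ofReal]
    exact_mod_cast h0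
  · rw [aeval_ofReal, aeval_ofReal]
    exact_mod_cast h2

theorem coe_aeval (y : Fin d → V.K) (P : MvPolynomial (Fin d) ℂ) :
    ((aeval y P : V.K) : V.Frac) = aeval (fun j => (y j : V.Frac)) P := by
  have := comp_aeval_apply (R := ℂ) y (V.K.val) P
  exact this

theorem val_aeval (hS : SpecStmt) {z : ι → ℝ} (hz : z ∈ V.RP) {y : Fin d → V.K}
    {x₀ : Fin d → ℂ} (hy : ∀ j, V.Val z (y j) (x₀ j)) (P : MvPolynomial (Fin d) ℂ) :
    V.Val z (aeval y P) (aeval x₀ P) := by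
  have hne : ∃ i, ((z i : ℝ) : ℂ) ≠ 0 := by
    by_contra hcon
    push Not at hcon
    apply hz.1
    funext i
    exact_mod_cast hcon i
  obtain ⟨-, s2, s3, s4, -⟩ := hS ι V ℂ (fun i => ((z i : ℝ) : ℂ)) hz.2 hne
  induction P using MvPolynomial.induction_on with
  | C a =>
    rw [aeval_C, aeval_C]
    exact s2 a
  | add p q hp hq =>
    rw [map_add, map_add]
    exact s3 _ _ _ _ hp hq
  | mul_X p k hp =>
    rw [map_mul, map_mul, aeval_X, aeval_X]
    exact s4 _ _ _ _ hp (hy k)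

/-- a function with a value, in terms of the coordinates -/
theorem repr {z : ι → ℝ} {y : Fin d → V.K} {L : ι → MvPolynomial (Fin d) ℂ} {u : V.Frac}
    {x₀ : Fin d → ℂ} {c : ℂ} (hu : u ≠ 0) (hc : c ≠ 0)
    (hgen : ∀ i, V.gen i = u * aeval (fun j => (y j : V.Frac)) (L i))
    (hzL : ∀ i, ((z i : ℝ) : ℂ) = c * aeval x₀ (L i)) {f : V.K} {a : ℂ} (hf : V.Val z f a) :
    ∃ P Q : MvPolynomial (Fin d) ℂ, aeval x₀ Q ≠ 0 ∧ f * aeval y Q = aeval y P ∧
      a * aeval x₀ Q = aeval x₀ P := by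
  obtain ⟨n, F, G, hF, hG, h0, h1, h2⟩ := hf
  have hev : ∀ H : MvPolynomial ι ℂ, H.IsHomogeneous n →
      aeval V.gen H = u ^ n * aeval (fun j => (y j : V.Frac)) (aeval L H) := by
    intro H hH
    have : V.gen = fun i => u * aeval (fun j => (y j : V.Frac)) (L i) := funext hgen
    rw [this, aeval_mul_hom hH, comp_aeval_apply]
  have hev' : ∀ H : MvPolynomial ι ℂ, H.IsHomogeneous n →
      aeval (fun i => ((z i : ℝ) : ℂ)) H = c ^ n * aeval x₀ (aeval L H) := by
    intro H hH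
    have : (fun i => ((z i : ℝ) : ℂ)) = fun i => c * aeval x₀ (L i) := funext hzL
    rw [this, aeval_mul_hom hH, comp_aeval_apply]
  have hun : u ^ n ≠ 0 := pow_ne_zero n hu
  have hcn : c ^ n ≠ 0 := pow_ne_zero n hc
  refine ⟨aeval L F, aeval L G, ?_, ?_, ?_⟩
  · intro h
    apply h0
    rw [hev' G hG, h, mul_zero]
  · apply Subtype.ext
    change (f : V.Frac) * ((aeval y (aeval L G) : V.K) : V.Frac) =
      ((aeval y (aeval L F) : V.K) : V.Frac)
    rw [coe_aeval, coe_aeval]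
    apply mul_left_cancel₀ hun
    rw [← hev F hF, ← h1, hev G hG]
    ring
  · rw [hev' G hG, hev' F hF] at h2
    apply mul_left_cancel₀ hcn
    rw [← h2]
    ring

theorem frmg (hS : SpecStmt) : FrmgStmt := by
  intro ι _ d V y L u x₀ z c hu hc hz hgen hzL hy
  have hne : ∃ i, ((z i : ℝ) : ℂ) ≠ 0 := by
    by_contra hcon
    push Not at hcon
    apply hz.1
    funext i
    exact_mod_cast hcon i
  obtain ⟨s1, s2, s3, s4, s5, s6, -⟩ := hS ι V ℂ (fun i => ((z i : ℝ) : ℂ)) hz.2 hne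
  have hyv : ∀ j, V.Val z (y j) ((x₀ j : ℝ) : ℂ) := fun j => val_of_rval (hy j)
  refine ⟨x₀, hy, ?_⟩
  intro f hf
  obtain ⟨P, Q, hQ, hfQ, hP⟩ := repr hu hc hgen hzL hf
  rw [zero_mul] at hP
  obtain ⟨H, hH⟩ := vanish (fun j => ((x₀ j : ℝ) : ℂ)) P (by
    rw [← hP.symm, aeval_eq_eval])
  have hQv := val_aeval hS hz hyv Q
  have hQ0 : aeval y Q ≠ 0 := by
    intro h
    rw [h] at hQv
    have h0 := s2 0
    rw [map_zero, map_zero] at h0
    exact hQ (s1 _ _ _ hQv h0)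
  refine ⟨fun k => aeval y (H k) * (aeval y Q)⁻¹, ?_, ?_⟩
  · intro k
    exact ⟨_, s4 _ _ _ _ (val_aeval hS hz hyv (H k)) (s6 _ _ hQv hQ)⟩
  · have : f = aeval y P * (aeval y Q)⁻¹ := by
      rw [← hfQ, mul_assoc, mul_inv_cancel₀ hQ0, mul_one]
    rw [this, hH, map_sum, Finset.sum_mul]
    refine Finset.sum_congr rfl fun k _ => ?_
    rw [map_mul, map_sub, aeval_X, aeval_C]
    ring

end

end PosGeom.H51
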